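import Mathlib

/-!
# Tolerance graphs have an efficient local representation

Adjacency of two vertices of a tolerance graph is a fixed Boolean combination of comparisons
between the twelve numbers `L, R, R - t, L + t, R - L, t` of the two vertices. So it is enough to
store the six ranks of these numbers among all `6 n` numbers.
-/

set_option autoImplicit false

namespace Pool.Agent.Results.MP_04ae81_co.EfficientRepresentation

/-- length of the intersection of the intervals `[a, b]` and `[c, d]` -/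
noncomputable def interLength (a b c d : ℝ) : ℝ := max 0 (min b d - max a c)

/-- tolerance graphs: vertex `v` has a closed interval `[L v, R v]` and a tolerance `t v > 0`, and
distinct vertices are adjacent exactly when the length of the intersection of their intervals is at
least the smaller of their tolerances -/
def IsTolerance {V : Type} (G : SimpleGraph V) : Prop :=
  ∃ L R t : V → ℝ, (∀ v, L v ≤ R v) ∧ (∀ v, 0 < t v) ∧
    ∀ v w, v ≠ w → (G.Adj v w ↔ min (t v) (t w) ≤ interLength (L v) (R v) (L w) (R w))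

/-- one of the two tolerances is met -/
def half (Rt Lt len t L' R' len' : ℕ) : Bool :=
  decide (t ≤ len ∧ t ≤ len' ∧ L' ≤ Rt ∧ Lt ≤ R')

/-- coordinate `i` of a code -/
def co : ℕ → ℕ → ℕ
  | 0, x => (Nat.unpair x).1
  | i + 1, x => co i (Nat.unpair x).2

/-- code of six numbers (the last coordinate is paired with `0`) -/
def enc (a b c d e f : ℕ) : ℕ :=
  Nat.pair a (Nat.pair b (Nat.pair c (Nat.pair d (Nat.pair e (Nat.pair f 0))))) + 1

/-- the symmetric 0-1 function -/
def A (x y : ℕ) : Bool :=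
  half (co 2 (x - 1)) (co 3 (x - 1)) (co 4 (x - 1)) (co 5 (x - 1))
    (co 0 (y - 1)) (co 1 (y - 1)) (co 4 (y - 1)) ||
  half (co 2 (y - 1)) (co 3 (y - 1)) (co 4 (y - 1)) (co 5 (y - 1))
    (co 0 (x - 1)) (co 1 (x - 1)) (co 4 (x - 1))

theorem A_symm (x y : ℕ) : A x y = A y x := by
  unfold A; rw [Bool.or_comm]

theorem A_enc (a b c d e f a' b' c' d' e' f' : ℕ) :
    A (enc a b c d e f) (enc a' b' c' d' e' f') = true ↔
      (f ≤ e ∧ f ≤ e' ∧ a' ≤ c ∧ d ≤ b') ∨ (f' ≤ e' ∧ f' ≤ e ∧ a ≤ c' ∧ d' ≤ b) := by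
  simp [A, enc, co, half]

theorem pair_lt {a b M : ℕ} (ha : a < M) (hb : b < M) : Nat.pair a b < M ^ 2 := by
  have h1 := Nat.pair_lt_max_add_one_sq a b
  have h2 : max a b + 1 ≤ M := by
    rcases max_cases a b with h | h <;> omega
  calc Nat.pair a b < (max a b + 1) ^ 2 := h1
    _ ≤ M ^ 2 := Nat.pow_le_pow_left h2 2

theorem enc_le {a b c d e f M : ℕ} (hM : 1 ≤ M) (ha : a < M) (hb : b < M) (hc : c < M) (hd : d < M)
    (he : e < M) (hf : f < M) : enc a b c d e f ≤ M ^ 64 := by
  have up : ∀ i : ℕ, ∀ x, x < M → x < M ^ (i + 1) := by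
    intro i x hx
    calc x < M ^ 1 := by simpa using hx
      _ ≤ M ^ (i + 1) := Nat.pow_le_pow_right hM (by omega)
  have h0 : 0 < M := hM
  have h1 : Nat.pair f 0 < M ^ 2 := pair_lt hf h0
  have h2 : Nat.pair e (Nat.pair f 0) < M ^ 4 := by
    have := pair_lt (up 1 e he) h1
    rwa [← pow_mul] at this
  have h3 : Nat.pair d (Nat.pair e (Nat.pair f 0)) < M ^ 8 := by
    have := pair_lt (up 3 d hd) h2
    rwa [← pow_mul] at this
  have h4 : Nat.pair c (Nat.pair d (Nat.pair e (Nat.pair f 0))) < M ^ 16 := by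
    have := pair_lt (up 7 c hc) h3
    rwa [← pow_mul] at this
  have h5 : Nat.pair b (Nat.pair c (Nat.pair d (Nat.pair e (Nat.pair f 0)))) < M ^ 32 := by
    have := pair_lt (up 15 b hb) h4
    rwa [← pow_mul] at this
  have h6 : Nat.pair a (Nat.pair b (Nat.pair c (Nat.pair d (Nat.pair e (Nat.pair f 0)))))
      < M ^ 64 := by
    have := pair_lt (up 31 a ha) h5
    rwa [← pow_mul] at this
  exact h6

/-- the rank of `x` among the values of `P` -/
noncomputable def rank {ι : Type} [Fintype ι] (P : ι → ℝ) (x : ℝ) : ℕ :=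
  (Finset.univ.filter (fun i => P i < x)).card

theorem rank_le_iff {ι : Type} [Fintype ι] (P : ι → ℝ) (i j : ι) :
    rank P (P i) ≤ rank P (P j) ↔ P i ≤ P j := by
  constructor
  · intro h
    by_contra hlt
    rw [not_le] at hlt
    have : rank P (P j) < rank P (P i) := by
      apply Finset.card_lt_card
      rw [Finset.ssubset_iff_of_subset]
      · exact ⟨j, by simpa using hlt, by simp⟩
      · intro k hk
        rw [Finset.mem_filter] at hk ⊢
        exact ⟨hk.1, hk.2.trans hlt⟩
    omega
  · intro h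
    apply Finset.card_le_card
    intro k hk
    rw [Finset.mem_filter] at hk ⊢
    exact ⟨hk.1, hk.2.trans_le h⟩

theorem rank_lt {ι : Type} [Fintype ι] (P : ι → ℝ) (i : ι) : rank P (P i) < Fintype.card ι := by
  apply Finset.card_lt_univ_of_notMem (x := i)
  simp

theorem tol_iff {a b c d s t : ℝ} (hs : 0 < s) (ht : 0 < t) :
    min s t ≤ interLength a b c d ↔
      (s ≤ b - a ∧ s ≤ d - c ∧ c ≤ b - s ∧ a + s ≤ d) ∨
      (t ≤ d - c ∧ t ≤ b - a ∧ a ≤ d - t ∧ c + t ≤ b) := by
  unfold interLength
  have key : ∀ u : ℝ, 0 < u → (u ≤ max 0 (min b d - max a c) ↔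
      (u ≤ b - a ∧ u ≤ d - c ∧ c ≤ b - u ∧ a + u ≤ d)) := by
    intro u hu
    rw [le_max_iff, le_sub_iff_add_le, le_min_iff, ← max_add_add_left, max_le_iff, max_le_iff]
    constructor
    · rintro (h | ⟨⟨h1, h2⟩, h3, h4⟩)
      · linarith
      · exact ⟨by linarith, by linarith, by linarith, by linarith⟩
    · rintro ⟨h1, h2, h3, h4⟩
      exact Or.inr ⟨⟨by linarith, by linarith⟩, by linarith, by linarith⟩
  rw [min_le_iff, key s hs, key t ht]
  constructor
  · rintro (h | ⟨h1, h2, h3, h4⟩)
    · exact Or.inl h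
    · exact Or.inr ⟨h2, h1, by linarith, by linarith⟩
  · rintro (h | ⟨h1, h2, h3, h4⟩)
    · exact Or.inl h
    · exact Or.inr ⟨h2, h1, by linarith, by linarith⟩

/-- The class of tolerance graphs has an efficient local representation: there are a symmetric
0-1 function `A` on the positive integers and a positive integer `k` such that the vertices of each
tolerance graph with `n` vertices can be labelled by integers from `1` to `n ^ k` so that distinct
vertices are adjacent exactly when `A` is `1` on their labels. -/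
theorem result : ∃ (A : ℕ → ℕ → Bool) (k : ℕ), 0 < k ∧ (∀ x y, A x y = A y x) ∧
    ∀ (V : Type) [Fintype V] (G : SimpleGraph V), IsTolerance G →
      ∃ ℓ : V → ℕ, (∀ v, 1 ≤ ℓ v ∧ ℓ v ≤ Fintype.card V ^ k) ∧
        ∀ v w, v ≠ w → (G.Adj v w ↔ A (ℓ v) (ℓ w) = true) := by
  refine ⟨A, 256, by norm_num, A_symm, ?_⟩
  intro V _ G ⟨L, R, t, hLR, ht, hadj⟩
  by_cases hcard : Fintype.card V ≤ 1
  · refine ⟨fun _ => 1, fun v => ⟨le_rfl, ?_⟩, fun v w hvw => ?_⟩
    · have : 0 < Fintype.card V := Fintype.card_pos_iff.mpr ⟨v⟩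
      exact Nat.one_le_pow _ _ this
    · exact absurd (Fintype.card_le_one_iff.mp hcard v w) hvw
  · rw [not_le] at hcard
    let P : V × Fin 6 → ℝ := fun p =>
      ![L p.1, R p.1, R p.1 - t p.1, L p.1 + t p.1, R p.1 - L p.1, t p.1] p.2
    let r : V → Fin 6 → ℕ := fun v i => rank P (P (v, i))
    have hr : ∀ v i, r v i < Fintype.card V ^ 4 := by
      intro v i
      have h1 : r v i < Fintype.card (V × Fin 6) := rank_lt P (v, i)
      rw [Fintype.card_prod, Fintype.card_fin] at h1
      have h2 : Fintype.card V * 6 ≤ Fintype.card V ^ 4 := by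
        have : 6 ≤ Fintype.card V ^ 3 := by
          calc 6 ≤ 2 ^ 3 := by norm_num
            _ ≤ Fintype.card V ^ 3 := Nat.pow_le_pow_left hcard 3
        calc Fintype.card V * 6 ≤ Fintype.card V * Fintype.card V ^ 3 :=
              Nat.mul_le_mul_left _ this
          _ = Fintype.card V ^ 4 := by ring
      omega
    refine ⟨fun v => enc (r v 0) (r v 1) (r v 2) (r v 3) (r v 4) (r v 5), fun v => ⟨?_, ?_⟩, ?_⟩
    · exact Nat.succ_le_succ (Nat.zero_le _)
    · have h1 : 0 < Fintype.card V := by omega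
      have := enc_le (M := Fintype.card V ^ 4) (Nat.one_le_pow _ _ h1)
        (hr v 0) (hr v 1) (hr v 2) (hr v 3) (hr v 4) (hr v 5)
      rwa [← pow_mul] at this
    · intro v w hvw
      rw [hadj v w hvw, tol_iff (ht v) (ht w), A_enc]
      simp only [r, rank_le_iff]
      simp only [P, Matrix.cons_val]

end Pool.Agent.Results.MP_04ae81_co.EfficientRepresentation
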